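import Mathlib
import Pool.Agent.Q160.Lem.Poly

/-!
# MP_071f48: the shortest escape path in a lemniscate can be arbitrarily long

For a monic polynomial `f` of degree `n` with all its roots in the closed unit disc let `L f` be the
infimum of the lengths of the paths in `{|f| ≤ 1}` from the origin to the unit circle, and let `S n` be
the supremum of `L f` over all these `f`.  We prove the conjecture of Erdős that `S n → ∞`.

More generally, for every real `c` let `L' c f` be the infimum of the lengths of the paths in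
`{|f| ≤ c}` from the origin to the unit circle, and let `S' c n` be the supremum of `L' c f` over the
monic polynomials of degree `n` all of whose roots lie on the unit circle.  Then `S' c n → ∞` for
every `c`.

Proof: the walls of a labyrinth in the disc `|z| ≤ 1/2` (circular arcs, each with one door, the doors
alternating between right and left) force every path to be long.  By Runge's theorem there is a
polynomial `h` with `h(0) = 0` and `Re h ≥ 1/2` on the walls.  For large `M` the polynomial
`P = (1 + λ h / M) ^ M` has no zero in the closed disc, `P(0) = 1`, and `|P| ≥ 1 + λ / 2` on the walls.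
With `P*(z) = z ^ d conj (P (1 / conj z))`, `d = deg P`, the polynomial `f = z ^ m P* + P` is monic
of degree `m + d`, all its roots lie on the unit circle, and `f → P` uniformly on the walls.
-/

set_option autoImplicit false

open Set Polynomial Topology Filter MeasureTheory
open scoped ENNReal

namespace Pool.Agent.Results.MP_071f48_an.LengthDiverges

/-- `γ : [0,1] → ℂ` is a path in `{|f| ≤ c}` from `0` to a point of the unit circle. -/
def Escapes (c : ℝ) (f : ℂ[X]) (γ : ℝ → ℂ) : Prop :=
  ContinuousOn γ (Icc 0 1) ∧ γ 0 = 0 ∧ ‖γ 1‖ = 1 ∧ ∀ t ∈ Icc (0:ℝ) 1, ‖f.eval (γ t)‖ ≤ c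

/-- The infimum of the lengths (one-dimensional Hausdorff measures) of the paths in `{|f| ≤ c}` from
`0` to the unit circle. -/
noncomputable def L (c : ℝ) (f : ℂ[X]) : ℝ≥0∞ :=
  ⨅ γ : ℝ → ℂ, ⨅ _ : Escapes c f γ, μH[1] (γ '' Icc 0 1)

/-- `f` is monic of degree `n` and all its roots lie in the closed unit disc. -/
def Admissible (n : ℕ) (f : ℂ[X]) : Prop :=
  f.Monic ∧ f.natDegree = n ∧ ∀ z : ℂ, f.eval z = 0 → ‖z‖ ≤ 1

/-- `S(n)`: the supremum of the shortest lengths over all admissible polynomials of degree `n`. -/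
noncomputable def S (n : ℕ) : ℝ≥0∞ := ⨆ f : ℂ[X], ⨆ _ : Admissible n f, L 1 f

/-- The same for the sets `{|f| ≤ c}` and for monic polynomials with all roots on the unit circle. -/
noncomputable def S' (c : ℝ) (n : ℕ) : ℝ≥0∞ :=
  ⨆ f : ℂ[X], ⨆ _ : f.Monic ∧ f.natDegree = n ∧ ∀ z : ℂ, f.eval z = 0 → ‖z‖ = 1, L c f

/-- **Erdős' conjecture:** `S(n) → ∞`; moreover `S'(c, n) → ∞` for every `c`. -/
theorem result : Tendsto S atTop (𝓝 ⊤) ∧ ∀ c : ℝ, Tendsto (S' c) atTop (𝓝 ⊤) := by
  have key : ∀ c : ℝ, Tendsto (S' c) atTop (𝓝 ⊤) := by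
    intro c
    rw [ENNReal.tendsto_nhds_top_iff_nat]
    intro k
    obtain ⟨n₀, hn₀⟩ := Pool.Agent.Q160.Lem.exists_f (4 * k + 5) (c := max c 0) (le_max_right _ _)
    filter_upwards [eventually_ge_atTop n₀] with n hn
    obtain ⟨f, hf1, hf2, hf3, hf4⟩ := hn₀ n hn
    have hL : ((k + 1 : ℕ) : ℝ≥0∞) ≤ L c f := by
      refine le_iInf fun γ => le_iInf fun hγ => ?_
      obtain ⟨h1, h2, h3, h4⟩ := hγ
      have hB : ∀ t ∈ Icc (0:ℝ) 1, γ t ∉ Pool.Agent.Q160.Lem.wall (4 * k + 5) := by
        intro t ht hw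
        have := hf4 _ hw
        exact absurd ((h4 t ht).trans (le_max_left c 0)) (not_le.2 this)
      refine le_trans ?_ (Pool.Agent.Q160.Lem.length_ge h1 h2 h3 hB)
      have e1 : (4 * k + 5 - 1 : ℕ) = 4 * (k + 1) := by omega
      rw [e1]
      have e2 : ENNReal.ofReal (1 / 4) = 4⁻¹ := by
        rw [one_div, ENNReal.ofReal_inv_of_pos (by norm_num)]
        norm_num
      rw [e2, Nat.cast_mul, Nat.cast_ofNat, mul_comm (4 : ℝ≥0∞), mul_assoc,
        ENNReal.mul_inv_cancel (by norm_num) (by norm_num), mul_one]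
    calc ((k : ℕ) : ℝ≥0∞) < ((k + 1 : ℕ) : ℝ≥0∞) := by exact_mod_cast Nat.lt_succ_self k
      _ ≤ L c f := hL
      _ ≤ S' c n := le_iSup₂_of_le f ⟨hf1, hf2, hf3⟩ le_rfl
  refine ⟨?_, key⟩
  refine tendsto_nhds_top_mono (key 1) (Eventually.of_forall fun n => ?_)
  refine iSup₂_le fun f hf => ?_
  exact le_iSup₂_of_le f ⟨hf.1, hf.2.1, fun z hz => (hf.2.2 z hz).le⟩ le_rfl

end Pool.Agent.Results.MP_071f48_an.LengthDiverges
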